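import Mathlib

/-!
# Littlewood - Paley for positive coefficients

If in every equation `a + b = c + d` in `S` some element of one side has a scale which differs
by at most `2` from the scale of an element of the other side and if the elements of one scale
have at most `g` representations of every number, then the additive energy of `w ≥ 0` on `S` is
at most `400 g (∑ w ^ 2) ^ 2`.
-/

set_option autoImplicit false

namespace Pool.Agent.Helper52.L4

open Finset

/-- sums over quadruples -/
noncomputable def Q (S : Finset ℕ) (F : ℕ → ℕ → ℕ → ℕ → ℝ) : ℝ :=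
  ∑ a ∈ S, ∑ b ∈ S, ∑ c ∈ S, ∑ d ∈ S, F a b c d

theorem Q12 (S : Finset ℕ) (F : ℕ → ℕ → ℕ → ℕ → ℝ) : Q S (fun a b c d => F b a c d) = Q S F :=
  Finset.sum_comm

theorem Q23 (S : Finset ℕ) (F : ℕ → ℕ → ℕ → ℕ → ℝ) : Q S (fun a b c d => F a c b d) = Q S F :=
  Finset.sum_congr rfl fun _ _ => Finset.sum_comm

theorem Q34 (S : Finset ℕ) (F : ℕ → ℕ → ℕ → ℕ → ℝ) : Q S (fun a b c d => F a b d c) = Q S F :=
  Finset.sum_congr rfl fun _ _ => Finset.sum_congr rfl fun _ _ => Finset.sum_comm

theorem Q24 (S : Finset ℕ) (F : ℕ → ℕ → ℕ → ℕ → ℝ) : Q S (fun a b c d => F a d c b) = Q S F :=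
  (Q34 S (fun a b c d => F a c d b)).trans
    ((Q23 S (fun a b c d => F a b d c)).trans (Q34 S F))

theorem Q13 (S : Finset ℕ) (F : ℕ → ℕ → ℕ → ℕ → ℝ) : Q S (fun a b c d => F c b a d) = Q S F :=
  (Q12 S (fun a b c d => F c a b d)).trans
    ((Q23 S (fun a b c d => F b a c d)).trans (Q12 S F))

theorem Q_sum {ι : Type} (T : Finset ι) (S : Finset ℕ) (F : ι → ℕ → ℕ → ℕ → ℕ → ℝ) :
    ∑ i ∈ T, Q S (F i) = Q S (fun a b c d => ∑ i ∈ T, F i a b c d) := by
  unfold Q
  rw [Finset.sum_comm]
  refine Finset.sum_congr rfl fun a _ => ?_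
  rw [Finset.sum_comm]
  refine Finset.sum_congr rfl fun b _ => ?_
  rw [Finset.sum_comm]
  refine Finset.sum_congr rfl fun c _ => ?_
  rw [Finset.sum_comm]

theorem Q_congr {S : Finset ℕ} {F G : ℕ → ℕ → ℕ → ℕ → ℝ}
    (h : ∀ a ∈ S, ∀ b ∈ S, ∀ c ∈ S, ∀ d ∈ S, F a b c d = G a b c d) : Q S F = Q S G :=
  Finset.sum_congr rfl fun a ha => Finset.sum_congr rfl fun b hb =>
    Finset.sum_congr rfl fun c hc => Finset.sum_congr rfl fun d hd => h a ha b hb c hc d hd

theorem Q_mono {S : Finset ℕ} {F G : ℕ → ℕ → ℕ → ℕ → ℝ}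
    (h : ∀ a ∈ S, ∀ b ∈ S, ∀ c ∈ S, ∀ d ∈ S, F a b c d ≤ G a b c d) : Q S F ≤ Q S G :=
  Finset.sum_le_sum fun a ha => Finset.sum_le_sum fun b hb =>
    Finset.sum_le_sum fun c hc => Finset.sum_le_sum fun d hd => h a ha b hb c hc d hd

theorem Q_add (S : Finset ℕ) (F G : ℕ → ℕ → ℕ → ℕ → ℝ) :
    Q S (fun a b c d => F a b c d + G a b c d) = Q S F + Q S G := by
  simp only [Q, Finset.sum_add_distrib]

/-- the energy of `f` -/
noncomputable def En (S : Finset ℕ) (f : ℕ → ℝ) : ℝ :=
  Q S (fun a b c d => if a + b = c + d then f a * f b * f c * f d else 0)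

/-- the correlation of `f` and `h` -/
noncomputable def Df (S : Finset ℕ) (f h : ℕ → ℝ) (m : ℤ) : ℝ :=
  ∑ x ∈ S, ∑ y ∈ S, if (x : ℤ) - y = m then f x * h y else 0

/-- the differences of `S` -/
def dif (S : Finset ℕ) : Finset ℤ := (S ×ˢ S).image (fun p => (p.1 : ℤ) - p.2)

theorem sum_Df_mul (S : Finset ℕ) (f h f' h' : ℕ → ℝ) :
    ∑ m ∈ dif S, Df S f h m * Df S f' h' m = Q S (fun x y x' y' =>
      if (x : ℤ) - y = x' - y' then f x * h y * (f' x' * h' y') else 0) := by
  have h1 : ∀ m, Df S f h m * Df S f' h' m = ∑ x ∈ S, ∑ y ∈ S,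
      if (x : ℤ) - y = m then f x * h y * Df S f' h' m else 0 := by
    intro m
    conv_lhs => rw [Df]
    rw [Finset.sum_mul]
    refine Finset.sum_congr rfl fun x _ => ?_
    rw [Finset.sum_mul]
    refine Finset.sum_congr rfl fun y _ => ?_
    split_ifs
    · rfl
    · rw [zero_mul]
  simp_rw [h1]
  rw [Finset.sum_comm]
  refine Finset.sum_congr rfl fun x hx => ?_
  rw [Finset.sum_comm]
  refine Finset.sum_congr rfl fun y hy => ?_
  have hxy : (x : ℤ) - y ∈ dif S :=
    Finset.mem_image.2 ⟨(x, y), Finset.mem_product.2 ⟨hx, hy⟩, rfl⟩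
  rw [Finset.sum_ite_eq, if_pos hxy, Df, Finset.mul_sum]
  refine Finset.sum_congr rfl fun x' _ => ?_
  rw [Finset.mul_sum]
  refine Finset.sum_congr rfl fun y' _ => ?_
  by_cases h2 : (x : ℤ) - y = x' - y'
  · simp only [if_pos h2, if_pos h2.symm]
  · have h3 : ¬ (x' : ℤ) - y' = x - y := fun e => h2 e.symm
    simp only [if_neg h2, if_neg h3, mul_zero]

/-- the sum over the differences of the square of the autocorrelation is the energy -/
theorem sum_Df_sq (S : Finset ℕ) (f : ℕ → ℝ) : ∑ m ∈ dif S, Df S f f m ^ 2 = En S f := by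
  have h1 : ∀ m, Df S f f m ^ 2 = Df S f f m * Df S f f m := fun m => sq _
  simp_rw [h1]
  rw [sum_Df_mul, En]
  refine Eq.trans ?_ (Q24 S _)
  refine Q_congr fun a _ b _ c _ d _ => ?_
  by_cases h2 : a + d = c + b
  · rw [if_pos (by omega), if_pos h2]
    ring
  · rw [if_neg (by omega), if_neg h2]

theorem En_nonneg (S : Finset ℕ) (f : ℕ → ℝ) : 0 ≤ En S f := by
  rw [← sum_Df_sq]
  positivity

/-- the square of the cross correlation -/
theorem sum_Df_cross (S : Finset ℕ) (f h : ℕ → ℝ) :
    ∑ m ∈ dif S, Df S f h m ^ 2 ≤ √(En S f) * √(En S h) := by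
  have h1 : ∑ m ∈ dif S, Df S f h m ^ 2 = ∑ m ∈ dif S, Df S f f m * Df S h h m := by
    have h1 : ∀ m, Df S f h m ^ 2 = Df S f h m * Df S f h m := fun m => sq _
    simp_rw [h1]
    rw [sum_Df_mul, sum_Df_mul]
    refine Eq.trans ?_ (Q23 S _)
    refine Q_congr fun a _ b _ c _ d _ => ?_
    by_cases h2 : a + d = c + b
    · rw [if_pos (by omega), if_pos (by omega)]
      ring
    · rw [if_neg (by omega), if_neg (by omega)]
  rw [h1]
  refine (Real.sum_mul_le_sqrt_mul_sqrt _ _ _).trans_eq ?_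
  rw [sum_Df_sq, sum_Df_sq]

/-- the energy of a function whose support has at most `g` representations of every number -/
theorem En_le (S : Finset ℕ) (f : ℕ → ℝ) (g : ℕ) (s : ℕ → Prop) [DecidablePred s]
    (hs : ∀ a, ¬ s a → f a = 0)
    (hg : ∀ n, ((S ×ˢ S).filter (fun p => s p.1 ∧ s p.2 ∧ p.1 + p.2 = n)).card ≤ g) :
    En S f ≤ g * (∑ a ∈ S, f a ^ 2) ^ 2 := by
  -- one side
  have h1 : Q S (fun a b c d => if a + b = c + d ∧ s c ∧ s d then f a ^ 2 * f b ^ 2 else 0) ≤
      g * (∑ a ∈ S, f a ^ 2) ^ 2 := by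
    have h2 : ∀ a b : ℕ, ∑ c ∈ S, ∑ d ∈ S,
        (if a + b = c + d ∧ s c ∧ s d then f a ^ 2 * f b ^ 2 else 0) ≤
          g * (f a ^ 2 * f b ^ 2) := by
      intro a b
      rw [← Finset.sum_product', ← Finset.sum_filter, Finset.sum_const, nsmul_eq_mul]
      refine mul_le_mul_of_nonneg_right ?_ (by positivity)
      have h3 := hg (a + b)
      have h4 : ((S ×ˢ S).filter (fun p => a + b = p.1 + p.2 ∧ s p.1 ∧ s p.2)).card ≤ g := by
        refine (Finset.card_le_card ?_).trans h3
        intro p hp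
        simp only [Finset.mem_filter] at hp ⊢
        exact ⟨hp.1, hp.2.2.1, hp.2.2.2, hp.2.1.symm⟩
      exact_mod_cast h4
    refine (Finset.sum_le_sum fun a _ => Finset.sum_le_sum fun b _ => h2 a b).trans_eq ?_
    rw [sq (∑ a ∈ S, f a ^ 2), Finset.sum_mul_sum, Finset.mul_sum]
    exact Finset.sum_congr rfl fun a _ => by rw [Finset.mul_sum]
  have h2 : Q S (fun a b c d => if a + b = c + d ∧ s a ∧ s b then f c ^ 2 * f d ^ 2 else 0) =
      Q S (fun a b c d => if a + b = c + d ∧ s c ∧ s d then f a ^ 2 * f b ^ 2 else 0) := by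
    refine Eq.trans ?_ ((Q13 S _).trans (Q24 S _))
    refine Q_congr fun a _ b _ c _ d _ => ?_
    by_cases h3 : a + b = c + d
    · by_cases h4 : s a ∧ s b
      · rw [if_pos ⟨h3, h4⟩, if_pos ⟨h3.symm, h4⟩]
      · rw [if_neg (fun h => h4 h.2), if_neg (fun h => h4 h.2)]
    · rw [if_neg (fun h => h3 h.1), if_neg (fun h => h3 h.1.symm)]
  have h3 : En S f ≤ Q S (fun a b c d =>
      (if a + b = c + d ∧ s c ∧ s d then f a ^ 2 * f b ^ 2 else 0) / 2 +
        (if a + b = c + d ∧ s a ∧ s b then f c ^ 2 * f d ^ 2 else 0) / 2) := by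
    refine Q_mono fun a _ b _ c _ d _ => ?_
    by_cases h4 : a + b = c + d
    · rw [if_pos h4]
      by_cases h5 : s a ∧ s b ∧ s c ∧ s d
      · rw [if_pos ⟨h4, h5.2.2⟩, if_pos ⟨h4, h5.1, h5.2.1⟩]
        nlinarith [sq_nonneg (f a * f b - f c * f d)]
      · have h6 : f a * f b * f c * f d = 0 := by
          by_contra h7
          simp only [mul_eq_zero, not_or] at h7
          exact h5 ⟨by_contra fun h => h7.1.1.1 (hs _ h), by_contra fun h => h7.1.1.2 (hs _ h),
            by_contra fun h => h7.1.2 (hs _ h), by_contra fun h => h7.2 (hs _ h)⟩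
        rw [h6]
        have : ∀ (p : Prop) [Decidable p] (x : ℝ), 0 ≤ x → 0 ≤ (if p then x else 0) := by
          intro p _ x hx
          split_ifs
          · exact hx
          · exact le_rfl
        have h8 := this (a + b = c + d ∧ s c ∧ s d) (f a ^ 2 * f b ^ 2) (by positivity)
        have h9 := this (a + b = c + d ∧ s a ∧ s b) (f c ^ 2 * f d ^ 2) (by positivity)
        linarith
    · rw [if_neg h4, if_neg (fun h => h4 h.1), if_neg (fun h => h4 h.1)]
      norm_num
  have h4 : Q S (fun a b c d =>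
      (if a + b = c + d ∧ s c ∧ s d then f a ^ 2 * f b ^ 2 else 0) / 2 +
        (if a + b = c + d ∧ s a ∧ s b then f c ^ 2 * f d ^ 2 else 0) / 2) =
      Q S (fun a b c d => if a + b = c + d ∧ s c ∧ s d then f a ^ 2 * f b ^ 2 else 0) / 2 +
      Q S (fun a b c d => if a + b = c + d ∧ s a ∧ s b then f c ^ 2 * f d ^ 2 else 0) / 2 := by
    rw [Q_add]
    simp only [Q, Finset.sum_div]
  rw [h4, h2] at h3
  linarith

/-- the scales which occur -/
def scs (S : Finset ℕ) (sc : ℕ → ℕ) : Finset ℕ := S.image sc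

/-- the part of `w` of scale `K` -/
noncomputable def part (w : ℕ → ℝ) (sc : ℕ → ℕ) (K : ℕ) (a : ℕ) : ℝ := if sc a = K then w a else 0

/-- **Littlewood - Paley for positive coefficients.** -/
theorem energy_le (S : Finset ℕ) (w : ℕ → ℝ) (hw : ∀ a, 0 ≤ w a) (sc : ℕ → ℕ) (g : ℕ)
    (hsc : ∀ a ∈ S, ∀ b ∈ S, ∀ c ∈ S, ∀ d ∈ S, a + b = c + d →
      ∃ u v, (u = a ∨ u = b) ∧ (v = c ∨ v = d) ∧ sc u ≤ sc v + 2 ∧ sc v ≤ sc u + 2)
    (hg : ∀ K n, ((S ×ˢ S).filter (fun p => sc p.1 = K ∧ sc p.2 = K ∧ p.1 + p.2 = n)).card ≤ g) :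
    En S w ≤ 400 * g * (∑ a ∈ S, w a ^ 2) ^ 2 := by
  set N : ℕ → ℝ := fun K => ∑ a ∈ S, part w sc K a ^ 2 with hN
  have hN0 : ∀ K, 0 ≤ N K := fun K => by positivity
  have hpart : ∀ K, En S (part w sc K) ≤ g * N K ^ 2 := by
    intro K
    refine En_le S (part w sc K) g (fun a => sc a = K) (fun a ha => if_neg ha) (fun n => ?_)
    exact hg K n
  have hsumN : ∑ K ∈ scs S sc, N K = ∑ a ∈ S, w a ^ 2 := by
    simp only [hN]
    rw [Finset.sum_comm]
    refine Finset.sum_congr rfl fun a ha => ?_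
    have h1 : ∀ K, part w sc K a ^ 2 = if sc a = K then w a ^ 2 else 0 := by
      intro K
      rw [part]
      split_ifs
      · rfl
      · norm_num
    simp_rw [h1]
    rw [Finset.sum_ite_eq, if_pos (show sc a ∈ scs S sc from Finset.mem_image_of_mem _ ha)]
  -- near pairs of scales
  set nr : ℕ → ℕ → ℝ := fun K L => if K ≤ L + 2 ∧ L ≤ K + 2 then 1 else 0 with hnr
  set X : ℝ := Q S (fun a b c d =>
    if a + b = c + d then w a * w b * w c * w d * nr (sc b) (sc d) else 0) with hX
  have h1 : En S w ≤ 4 * X := by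
    have e1 : Q S (fun a b c d =>
        if a + b = c + d then w a * w b * w c * w d * nr (sc b) (sc c) else 0) = X := by
      rw [hX]; refine Eq.trans ?_ (Q34 S _)
      refine Q_congr fun a _ b _ c _ d _ => ?_
      by_cases h : a + b = c + d
      · rw [if_pos h, if_pos (by omega)]
        ring
      · rw [if_neg h, if_neg (by omega)]
    have e2 : Q S (fun a b c d =>
        if a + b = c + d then w a * w b * w c * w d * nr (sc a) (sc d) else 0) = X := by
      rw [hX]
      refine Eq.trans ?_ (Q12 S _)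
      refine Q_congr fun a _ b _ c _ d _ => ?_
      by_cases h : a + b = c + d
      · rw [if_pos h, if_pos (by omega)]
        ring
      · rw [if_neg h, if_neg (by omega)]
    have e3 : Q S (fun a b c d =>
        if a + b = c + d then w a * w b * w c * w d * nr (sc a) (sc c) else 0) = X := by
      rw [← e2]
      refine Eq.trans ?_ (Q34 S _)
      refine Q_congr fun a _ b _ c _ d _ => ?_
      by_cases h : a + b = c + d
      · rw [if_pos h, if_pos (by omega)]
        ring
      · rw [if_neg h, if_neg (by omega)]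
    have e4 : En S w ≤ Q S (fun a b c d =>
        ((if a + b = c + d then w a * w b * w c * w d * nr (sc b) (sc d) else 0) +
        (if a + b = c + d then w a * w b * w c * w d * nr (sc b) (sc c) else 0)) +
        ((if a + b = c + d then w a * w b * w c * w d * nr (sc a) (sc d) else 0) +
        (if a + b = c + d then w a * w b * w c * w d * nr (sc a) (sc c) else 0))) := by
      refine Q_mono fun a ha b hb c hc d hd => ?_
      by_cases h : a + b = c + d
      · simp only [if_pos h]
        have hp : 0 ≤ w a * w b * w c * w d :=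
          mul_nonneg (mul_nonneg (mul_nonneg (hw a) (hw b)) (hw c)) (hw d)
        have hnn : ∀ K L, 0 ≤ nr K L := by
          intro K L
          simp only [hnr]
          split_ifs <;> norm_num
        have hone : 1 ≤ nr (sc b) (sc d) + nr (sc b) (sc c) + (nr (sc a) (sc d) +
            nr (sc a) (sc c)) := by
          obtain ⟨u, v, hu, hv, h1, h2⟩ := hsc a ha b hb c hc d hd h
          have h3 : nr (sc u) (sc v) = 1 := if_pos ⟨h1, h2⟩
          have := hnn (sc b) (sc d)
          have := hnn (sc b) (sc c)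
          have := hnn (sc a) (sc d)
          have := hnn (sc a) (sc c)
          rcases hu with rfl | rfl <;> rcases hv with rfl | rfl <;> linarith
        nlinarith
      · simp only [if_neg h]
        norm_num
    rw [Q_add, Q_add, Q_add, e1, e2, e3, ← hX] at e4
    linarith
  -- the sum over pairs of scales
  have h2 : X = ∑ K ∈ scs S sc, ∑ L ∈ scs S sc, nr K L *
      ∑ m ∈ dif S, Df S (part w sc K) (part w sc L) m * Df S w w m := by
    have e1 : ∀ K L, nr K L * ∑ m ∈ dif S, Df S (part w sc K) (part w sc L) m * Df S w w m =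
        Q S (fun b d c a => if a + b = c + d then
          nr K L * (part w sc K b * part w sc L d * (w c * w a)) else 0) := by
      intro K L
      rw [sum_Df_mul]
      simp only [Q, Finset.mul_sum]
      refine Finset.sum_congr rfl fun b _ => Finset.sum_congr rfl fun d _ =>
        Finset.sum_congr rfl fun c _ => Finset.sum_congr rfl fun a _ => ?_
      by_cases h : a + b = c + d
      · rw [if_pos h, if_pos (by omega)]
      · rw [if_neg h, if_neg (by omega), mul_zero]
    simp_rw [e1]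
    have e2 : X = Q S (fun b d c a =>
        if a + b = c + d then w a * w b * w c * w d * nr (sc b) (sc d) else 0) := by
      rw [hX]
      exact ((Q24 S _).trans (Q12 S _)).symm
    rw [e2]
    simp_rw [Q_sum]
    refine Q_congr fun b hb d hd c _ a _ => ?_
    by_cases h : a + b = c + d
    · simp only [if_pos h]
      have e3 : ∀ K L, nr K L * (part w sc K b * part w sc L d * (w c * w a)) =
          if sc d = L then (if sc b = K then nr K L * (w b * w d * (w c * w a)) else 0) else 0 := by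
        intro K L
        simp only [part]
        split_ifs <;> ring
      simp_rw [e3]
      have hd' : sc d ∈ scs S sc := Finset.mem_image_of_mem _ hd
      have hb' : sc b ∈ scs S sc := Finset.mem_image_of_mem _ hb
      simp only [Finset.sum_ite_eq, hd', hb', if_true]
      ring
    · simp [if_neg h]
  -- one pair of scales
  have hg0 : (0 : ℝ) ≤ g := Nat.cast_nonneg _
  have h3 : ∀ K L, √(∑ m ∈ dif S, Df S (part w sc K) (part w sc L) m ^ 2) ≤
      √g * ((N K + N L) / 2) := by
    intro K L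
    have e1 : ∀ K, √(En S (part w sc K)) ≤ √g * N K := by
      intro K
      have e2 := Real.sqrt_le_sqrt (hpart K)
      rwa [Real.sqrt_mul hg0, Real.sqrt_sq (hN0 K)] at e2
    have e2 : ∑ m ∈ dif S, Df S (part w sc K) (part w sc L) m ^ 2 ≤
        (√g * ((N K + N L) / 2)) ^ 2 := by
      refine (sum_Df_cross S _ _).trans ?_
      refine (mul_le_mul (e1 K) (e1 L) (Real.sqrt_nonneg _)
        (mul_nonneg (Real.sqrt_nonneg _) (hN0 K))).trans ?_
      nlinarith [mul_nonneg (sq_nonneg (√g)) (sq_nonneg (N K - N L))]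
    refine (Real.sqrt_le_sqrt e2).trans_eq ?_
    refine Real.sqrt_sq (mul_nonneg (Real.sqrt_nonneg _) ?_)
    have := hN0 K
    have := hN0 L
    linarith
  have hnn : ∀ K L, 0 ≤ nr K L := by
    intro K L
    simp only [hnr]
    split_ifs <;> norm_num
  have h4 : X ≤ (∑ K ∈ scs S sc, ∑ L ∈ scs S sc, nr K L * ((N K + N L) / 2)) *
      (√g * √(En S w)) := by
    rw [h2, Finset.sum_mul]
    refine Finset.sum_le_sum fun K _ => ?_
    rw [Finset.sum_mul]
    refine Finset.sum_le_sum fun L _ => ?_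
    have e1 := Real.sum_mul_le_sqrt_mul_sqrt (dif S)
      (fun m => Df S (part w sc K) (part w sc L) m) (fun m => Df S w w m)
    rw [sum_Df_sq] at e1
    have e2 : ∑ m ∈ dif S, Df S (part w sc K) (part w sc L) m * Df S w w m ≤
        √g * ((N K + N L) / 2) * √(En S w) :=
      e1.trans (mul_le_mul_of_nonneg_right (h3 K L) (Real.sqrt_nonneg _))
    calc _ ≤ nr K L * (√g * ((N K + N L) / 2) * √(En S w)) :=
          mul_le_mul_of_nonneg_left e2 (hnn K L)
      _ = _ := by ring
  have h5 : ∀ K, ∑ L ∈ scs S sc, nr K L ≤ 5 := by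
    intro K
    simp only [hnr]
    rw [← Finset.sum_filter, Finset.sum_const, nsmul_eq_mul, mul_one]
    have e1 : ((scs S sc).filter (fun L => K ≤ L + 2 ∧ L ≤ K + 2)).card ≤ 5 := by
      have e2 : (scs S sc).filter (fun L => K ≤ L + 2 ∧ L ≤ K + 2) ⊆
          Finset.Icc (K - 2) (K + 2) := by
        intro L hL
        rw [Finset.mem_filter] at hL
        rw [Finset.mem_Icc]
        omega
      refine (Finset.card_le_card e2).trans ?_
      rw [Nat.card_Icc]
      omega
    exact_mod_cast e1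
  have h6 : ∑ K ∈ scs S sc, ∑ L ∈ scs S sc, nr K L * ((N K + N L) / 2) ≤
      5 * ∑ a ∈ S, w a ^ 2 := by
    have e1 : ∑ K ∈ scs S sc, ∑ L ∈ scs S sc, nr K L * N K ≤ 5 * ∑ a ∈ S, w a ^ 2 := by
      rw [← hsumN, Finset.mul_sum]
      refine Finset.sum_le_sum fun K _ => ?_
      rw [← Finset.sum_mul]
      exact mul_le_mul_of_nonneg_right (h5 K) (hN0 K)
    have e2 : ∑ K ∈ scs S sc, ∑ L ∈ scs S sc, nr K L * N L =
        ∑ K ∈ scs S sc, ∑ L ∈ scs S sc, nr K L * N K := by
      rw [Finset.sum_comm]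
      refine Finset.sum_congr rfl fun K _ => Finset.sum_congr rfl fun L _ => ?_
      have : nr L K = nr K L := by
        simp only [hnr]
        exact if_congr and_comm rfl rfl
      rw [this]
    have e3 : ∑ K ∈ scs S sc, ∑ L ∈ scs S sc, nr K L * ((N K + N L) / 2) =
        (∑ K ∈ scs S sc, ∑ L ∈ scs S sc, nr K L * N K) / 2 +
          (∑ K ∈ scs S sc, ∑ L ∈ scs S sc, nr K L * N L) / 2 := by
      rw [← add_div, ← Finset.sum_add_distrib, Finset.sum_div]
      refine Finset.sum_congr rfl fun K _ => ?_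
      rw [← Finset.sum_add_distrib, Finset.sum_div]
      refine Finset.sum_congr rfl fun L _ => ?_
      ring
    rw [e3, e2]
    linarith
  have hE := En_nonneg S w
  set W : ℝ := ∑ a ∈ S, w a ^ 2 with hW
  have hW0 : 0 ≤ W := by positivity
  have h7 : En S w ≤ 20 * √g * W * √(En S w) := by
    have e1 : X ≤ 5 * W * (√g * √(En S w)) :=
      h4.trans (mul_le_mul_of_nonneg_right h6 (by positivity))
    calc En S w ≤ 4 * X := h1
      _ ≤ 4 * (5 * W * (√g * √(En S w))) := by linarith
      _ = _ := by ring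
  have h8 : √(En S w) ≤ 20 * √g * W := by
    rcases eq_or_lt_of_le (Real.sqrt_nonneg (En S w)) with h | h
    · rw [← h]
      positivity
    · have e1 : √(En S w) * √(En S w) ≤ 20 * √g * W * √(En S w) := by
        rw [Real.mul_self_sqrt hE]
        exact h7
      exact le_of_mul_le_mul_right e1 h
  calc En S w = √(En S w) ^ 2 := (Real.sq_sqrt hE).symm
    _ ≤ (20 * √g * W) ^ 2 := pow_le_pow_left₀ (Real.sqrt_nonneg _) h8 2
    _ = 400 * (√g) ^ 2 * W ^ 2 := by ring
    _ = 400 * g * W ^ 2 := by rw [Real.sq_sqrt hg0]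

end Pool.Agent.Helper52.L4
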